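import Pool.Graph.R_seed8.R47.PK.Asy

/-!
MP_9d63a4_co: the asymptotics of the coefficients (the argument of the library file
`R_seed8/R47/PK/Asy.lean`, with a further factor `G`).
-/

set_option autoImplicit false

namespace Pool.Agent.KS6_29.PF
open PowerSeries Filter Topology R47.PK

/-- the averaging lemma, with any limit -/
theorem toepG (c : ℕ → ℝ) (L : ℝ) (hc : Tendsto c atTop (𝓝 L)) (a : ℕ → ℕ → ℝ)
    (ha : ∀ N j, 0 ≤ a N j)
    (hs : Tendsto (fun N => ∑ j ∈ Finset.range (N + 1), a N j) atTop (𝓝 (1 / 2)))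
    (hk : ∀ k, Tendsto (fun N => a N (N - k)) atTop (𝓝 0)) :
    Tendsto (fun N => ∑ k ∈ Finset.range (N + 1), c k * a N (N - k)) atTop (𝓝 (L / 2)) := by
  have h1 : Tendsto (fun k => c k + (1 - L)) atTop (𝓝 1) := by
    have := hc.add_const (1 - L)
    rwa [show L + (1 - L) = 1 by ring] at this
  have h2 := R47.PK.Ser.toep _ h1 a ha hs hk
  have h3 := h2.sub (hs.const_mul (1 - L))
  rw [show (1 : ℝ) / 2 - (1 - L) * (1 / 2) = L / 2 by ring] at h3
  refine h3.congr fun N => ?_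
  have hflip : ∑ k ∈ Finset.range (N + 1), a N (N - k) =
      ∑ j ∈ Finset.range (N + 1), a N j := Finset.sum_flip (fun j => a N j)
  rw [← hflip, Finset.mul_sum, ← Finset.sum_sub_distrib]
  exact Finset.sum_congr rfl fun k _ => by ring

open R47.PK.Ser in
/-- The asymptotics of the coefficients of `G / (J₀ (J₁)^N)` for every fixed power series `G` which
is absolutely summable at the first zero `t0` of `J₀(2√t)`. -/
theorem asyG : ∃ t0 : ℝ, 0 < t0 ∧ Bf t0 = 0 ∧ (∀ t, 0 ≤ t → t < t0 → 0 < Bf t) ∧ 0 < Pf t0 ∧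
    AS (rescale t0 BS) ∧ ev (rescale t0 BS) = 0 ∧ AS (rescale t0 PS⁻¹) ∧
    ∀ G : ℝ⟦X⟧, AS (rescale t0 G) →
    Tendsto (fun N : ℕ => coeff N (G * (BS⁻¹ * (PS⁻¹) ^ N)) * (t0 * Pf t0) ^ (N + 1)) atTop
      (𝓝 (ev (rescale t0 G) / 2)) := by
  obtain ⟨t0, ht0, ht32, hBf, hleast⟩ := exists_t0
  -- the rescaled series
  obtain ⟨b, hb⟩ : ∃ b, b = rescale t0 BS := ⟨_, rfl⟩
  obtain ⟨p, hp⟩ : ∃ p, p = rescale t0 PS := ⟨_, rfl⟩
  obtain ⟨q, hq⟩ : ∃ q, q = rescale t0 PS⁻¹ := ⟨_, rfl⟩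
  obtain ⟨V, hV⟩ : ∃ V, V = rescale t0 BS⁻¹ := ⟨_, rfl⟩
  have hpq : p * q = 1 := by
    rw [hp, hq, ← map_mul, PowerSeries.mul_inv_cancel _ ps_ne, map_one]
  have hbV : b * V = 1 := by
    rw [hb, hV, ← map_mul, PowerSeries.mul_inv_cancel _ bs_ne, map_one]
  have hcb : ∀ k, coeff k b = (-1) ^ k * t0 ^ k / ((k.factorial : ℝ)) ^ 2 := by
    intro k; rw [hb, coeff_rescale, BS, coeff_mk]; ring
  have hcp : ∀ k, coeff k p =
      (-1) ^ k * t0 ^ k / ((k.factorial : ℝ) * ((k + 1).factorial : ℝ)) := by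
    intro k; rw [hp, coeff_rescale, PS, coeff_mk]; ring
  have hASb : AS b := by
    unfold AS
    refine Summable.of_nonneg_of_le (fun _ => abs_nonneg _) (fun k => ?_)
      (Real.summable_pow_div_factorial (3 / 2))
    rw [hcb]; exact bterm_le ht0.le ht32 k
  have hevb : ev b = 0 := by
    rw [← hBf]; unfold ev Bf
    exact tsum_congr hcb
  have hASp : AS p := by
    unfold AS
    refine Summable.of_nonneg_of_le (fun _ => abs_nonneg _) (fun k => ?_)
      (Real.summable_pow_div_factorial (3 / 2))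
    refine le_trans ?_ (bterm_le ht0.le ht32 k)
    rw [hcp, abs_div, abs_div]
    refine div_le_div_of_nonneg_left (abs_nonneg _) (by positivity) ?_
    rw [abs_of_nonneg (by positivity), abs_of_nonneg (by positivity), sq]
    refine mul_le_mul_of_nonneg_left ?_ (by positivity)
    exact_mod_cast Nat.factorial_le (Nat.le_succ k)
  have hevp : ev p = Pf t0 := by
    unfold ev Pf
    exact tsum_congr hcp
  -- the inverse of `ψ`
  have hcq : ∀ k, 0 ≤ coeff k q ∧ coeff k q ≤ (3 / 4) ^ k := by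
    intro k
    obtain ⟨h1, h2⟩ := r_bound k
    rw [hq, coeff_rescale]
    refine ⟨by positivity, ?_⟩
    calc t0 ^ k * coeff k PS⁻¹ ≤ (3 / 2) ^ k * (1 / 2) ^ k :=
          mul_le_mul (pow_le_pow_left₀ ht0.le ht32 k) h2 h1 (by positivity)
      _ = (3 / 4) ^ k := by rw [← mul_pow]; norm_num
  have hq0 : coeff 0 q = 1 := by rw [hq, coeff_rescale, r_zero]; norm_num
  have hASq : AS q := by
    unfold AS
    refine Summable.of_nonneg_of_le (fun _ => abs_nonneg _) (fun k => ?_)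
      (summable_geometric_of_lt_one (r := 3 / 4) (by norm_num) (by norm_num))
    rw [abs_of_nonneg (hcq k).1]; exact (hcq k).2
  have hev1 : ev (1 : ℝ⟦X⟧) = 1 := by
    unfold ev
    rw [tsum_eq_single 0]
    · simp
    · intro k hk; rw [coeff_one, if_neg hk]
  have hevpq : ev p * ev q = 1 := by
    rw [← (hASp.mul hASq).2, hpq, hev1]
  have hevq : 1 ≤ ev q := by
    rw [← hq0]
    exact hASq.summable.le_tsum 0 fun k _ => (hcq k).1
  obtain ⟨ψ, hψ⟩ : ∃ ψ, ψ = Pf t0 := ⟨_, rfl⟩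
  rw [hevp, ← hψ] at hevpq
  have hψ0 : 0 < ψ := by
    by_contra hcon
    rw [not_lt] at hcon
    have := mul_nonpos_of_nonpos_of_nonneg hcon (zero_le_one.trans hevq)
    linarith
  -- the probability
  obtain ⟨π, hπ⟩ : ∃ π : ℕ → ℝ, ∀ k, π k = ψ * coeff k q := ⟨_, fun _ => rfl⟩
  have hπ0 : ∀ k, 0 ≤ π k := fun k => by
    rw [hπ]; exact mul_nonneg hψ0.le (hcq k).1
  have hπ1 : HasSum π 1 := by
    have h1 := hASq.summable.hasSum.mul_left ψ
    have h2 : ψ * ∑' k, coeff k q = 1 := hevpq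
    rw [h2] at h1
    have h3 : π = fun k => ψ * coeff k q := funext hπ
    rw [h3]; exact h1
  have hkq : ∀ k : ℕ, (k : ℝ) * coeff k q = coeff k (q - b * (q * q)) := by
    intro k
    have h1 := congrArg (coeff k) (congrArg (rescale t0) mean_rel)
    rw [map_sub, map_mul (rescale t0) BS, map_mul (rescale t0) PS⁻¹, ← hb, ← hq] at h1
    rw [← h1, coeff_rescale, hq, coeff_rescale]
    rcases k with _ | k
    · rw [coeff_zero_X_mul]; simp
    · rw [coeff_succ_X_mul, coeff_derivative]; push_cast; ring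
  have hASqq := hASq.mul hASq
  have hASbqq := hASb.mul hASqq.1
  have hmean : HasSum (fun k : ℕ => (k : ℝ) * π k) 1 := by
    have h1 : Summable fun k : ℕ => (k : ℝ) * coeff k q := by
      refine (hASq.summable.sub hASbqq.1.summable).congr fun k => ?_
      rw [hkq, map_sub]
    have h2 : ∑' k : ℕ, (k : ℝ) * coeff k q = ev q := by
      have h3 : ∀ k : ℕ, (k : ℝ) * coeff k q = coeff k q - coeff k (b * (q * q)) := fun k => by
        rw [hkq, map_sub]
      rw [tsum_congr h3, hASq.summable.tsum_sub hASbqq.1.summable]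
      have h4 : ∑' k, coeff k (b * (q * q)) = 0 := by
        have := hASbqq.2
        rw [hevb, zero_mul] at this
        exact this
      rw [h4, sub_zero]
      rfl
    have h3 := h1.hasSum.mul_left ψ
    rw [h2, hevpq] at h3
    have h4 : (fun k : ℕ => (k : ℝ) * π k) = fun k : ℕ => ψ * ((k : ℝ) * coeff k q) := by
      ext k; rw [hπ]; ring
    rw [h4]
    exact h3
  have h2nd : Summable (fun k : ℕ => (k : ℝ) ^ 2 * π k) := by
    have h1 : Summable fun k : ℕ => ψ * ((k : ℝ) ^ 2 * (3 / 4 : ℝ) ^ k) :=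
      (summable_pow_mul_geometric_of_norm_lt_one 2
        (by rw [Real.norm_eq_abs, abs_of_pos] <;> norm_num)).mul_left ψ
    refine Summable.of_nonneg_of_le (fun k => mul_nonneg (by positivity) (hπ0 k))
      (fun k => ?_) h1
    rw [hπ]
    have h2 : (k : ℝ) ^ 2 * coeff k q ≤ (k : ℝ) ^ 2 * (3 / 4) ^ k :=
      mul_le_mul_of_nonneg_left (hcq k).2 (by positivity)
    have h3 := mul_le_mul_of_nonneg_left h2 hψ0.le
    linarith
  obtain ⟨hclt1, hclt2⟩ := Clt.clt π hπ0 hπ1 hmean h2nd (by rw [hπ, hq0, mul_one]; exact hψ0)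
  -- the coefficients of `1/w`
  obtain ⟨B, hB⟩ : ∃ B, B = b * PowerSeries.mk 1 := ⟨_, rfl⟩
  obtain ⟨D, hD⟩ : ∃ D, D = (1 - X) * V := ⟨_, rfl⟩
  have hone : (PowerSeries.mk 1 : ℝ⟦X⟧) * (1 - X) = 1 := mk_one_mul_one_sub_eq_one ℝ
  have hBD : B * D = 1 := by
    rw [hB, hD]
    calc b * PowerSeries.mk 1 * ((1 - X) * V) = (b * V) * (PowerSeries.mk 1 * (1 - X)) := by ring
      _ = 1 := by rw [hbV, hone, mul_one]
  have hcm : ∀ (f : ℝ⟦X⟧) (k : ℕ), coeff k (f * PowerSeries.mk 1) =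
      ∑ i ∈ Finset.range (k + 1), coeff i f := by
    intro f k
    rw [coeff_mul, Finset.Nat.sum_antidiagonal_eq_sum_range_succ_mk]
    refine Finset.sum_congr rfl fun i _ => ?_
    rw [coeff_mk]; simp
  have hcB : ∀ k, coeff k B = ∑ i ∈ Finset.range (k + 1), coeff i b := fun k => by rw [hB, hcm]
  have hB0 : coeff 0 B = 1 := by
    rw [hcB, Finset.sum_range_one, hcb]; norm_num
  have hb2 : ∀ m, |coeff (m + 2) b| ≤ 9 / 16 * (1 / 6) ^ m := by
    intro m
    rw [hcb, abs_div, abs_mul, abs_pow, abs_neg, abs_one, one_pow, one_mul,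
      abs_of_nonneg (by positivity),
      abs_of_nonneg (by positivity : (0 : ℝ) ≤ (((m + 2).factorial : ℝ)) ^ 2)]
    have h1 : t0 ^ (m + 2) ≤ (3 / 2) ^ (m + 2) := pow_le_pow_left₀ ht0.le ht32 _
    have h2 : (2 * 3 ^ m : ℝ) ^ 2 ≤ (((m + 2).factorial : ℝ)) ^ 2 :=
      pow_le_pow_left₀ (by positivity) (fact_ge2 m) 2
    refine (div_le_div₀ (by positivity) h1 (by positivity) h2).trans_eq ?_
    have h5 : (1 / 6 : ℝ) ^ m = (3 / 2) ^ m / (3 ^ m) ^ 2 := by
      rw [← pow_mul, mul_comm m 2, pow_mul, ← div_pow]; norm_num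
    rw [h5, pow_add]
    field_simp
    norm_num
  have hBb : ∀ k, |coeff (k + 1) B| ≤ 27 / 40 * (1 / 6) ^ k := by
    intro k
    have h1 := hASb.summable.sum_add_tsum_nat_add (k + 2)
    have h2 : ∑' i, coeff i b = 0 := hevb
    rw [h2] at h1
    rw [hcB, show k + 1 + 1 = k + 2 by ring]
    have h3 : ∑ i ∈ Finset.range (k + 2), coeff i b = -∑' i, coeff (i + (k + 2)) b := by linarith
    rw [h3, abs_neg]
    have h4 : ∀ i, |coeff (i + (k + 2)) b| ≤ 9 / 16 * (1 / 6) ^ k * (1 / 6) ^ i := by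
      intro i
      have := hb2 (i + k)
      rw [show i + (k + 2) = i + k + 2 by ring]
      refine this.trans_eq ?_
      rw [pow_add]; ring
    have hgs : Summable fun i : ℕ => 9 / 16 * (1 / 6 : ℝ) ^ k * (1 / 6) ^ i :=
      (summable_geometric_of_lt_one (by norm_num) (by norm_num)).mul_left _
    have h5 := tsum_of_norm_bounded (f := fun i => coeff (i + (k + 2)) b) hgs.hasSum h4
    rw [tsum_mul_left, tsum_geometric_of_lt_one (by norm_num) (by norm_num)] at h5
    rw [Real.norm_eq_abs] at h5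
    refine h5.trans_eq ?_
    norm_num
    ring
  have hDb := wiener hBD hB0 hBb
  have hASD : AS D := by
    unfold AS
    exact Summable.of_nonneg_of_le (fun _ => abs_nonneg _) hDb
      (summable_geometric_of_lt_one (by norm_num) (by norm_num))
  have hASB : AS B := by
    unfold AS
    rw [← summable_nat_add_iff 1]
    exact Summable.of_nonneg_of_le (fun _ => abs_nonneg _) hBb
      ((summable_geometric_of_lt_one (by norm_num) (by norm_num)).mul_left _)
  have hevBD : ev B * ev D = 1 := by rw [← (hASB.mul hASD).2, hBD, hev1]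
  -- the value of `ev B`
  have hevB : ev B = t0 * ψ := by
    obtain ⟨g, hg⟩ : ∃ g : ℕ → ℝ, ∀ n, g n = (n : ℝ) * coeff n B := ⟨_, fun _ => rfl⟩
    have hgs : Summable g := by
      rw [← summable_nat_add_iff 1]
      have h1 : Summable fun k : ℕ => ((k : ℝ) + 1) * (27 / 40 * (1 / 6 : ℝ) ^ k) := by
        have h2 : Summable fun k : ℕ => ((k : ℝ) ^ 1 * (1 / 6 : ℝ) ^ k) :=
          summable_pow_mul_geometric_of_norm_lt_one 1
            (by rw [Real.norm_eq_abs, abs_of_pos] <;> norm_num)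
        have h3 : Summable fun k : ℕ => (1 / 6 : ℝ) ^ k :=
          summable_geometric_of_lt_one (by norm_num) (by norm_num)
        refine ((h2.add h3).mul_left (27 / 40)).congr fun k => ?_
        ring
      refine Summable.of_norm_bounded h1 fun k => ?_
      rw [hg, Real.norm_eq_abs, abs_mul, Nat.abs_cast]
      push_cast
      exact mul_le_mul_of_nonneg_left (hBb k) (by positivity)
    have h1 : ∀ n : ℕ, -(t0 * coeff n p) = g (n + 1) - g n - coeff n B := by
      intro n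
      have h2 : coeff (n + 1) B = coeff n B + coeff (n + 1) b := by
        rw [hcB, hcB, Finset.sum_range_succ _ (n + 1)]
      rw [hg, hg, h2, hcp, hcb]
      have h3 : ((n + 1).factorial : ℝ) = (n + 1) * n.factorial := by
        rw [Nat.factorial_succ]; push_cast; ring
      rw [h3]
      push_cast
      have h4 : (n.factorial : ℝ) ≠ 0 := by positivity
      have h5 : (n : ℝ) + 1 ≠ 0 := by positivity
      field_simp
      ring
    have h2 : Summable fun n => g (n + 1) := (summable_nat_add_iff 1).2 hgs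
    have h3 : ∑' n, -(t0 * coeff n p) = ∑' n, (g (n + 1) - g n - coeff n B) := tsum_congr h1
    rw [tsum_neg, tsum_mul_left, (h2.sub hgs).tsum_sub hASB.summable, h2.tsum_sub hgs,
      hgs.tsum_eq_zero_add] at h3
    have h4 : g 0 = 0 := by rw [hg]; simp
    have h5 : ∑' n, coeff n p = ψ := by rw [hψ, ← hevp]; rfl
    have h6 : ∑' n, coeff n B = ev B := rfl
    rw [h4, h5, h6] at h3
    linarith
  -- the coefficients of `V`
  have hcV : ∀ k, coeff k V = ∑ i ∈ Finset.range (k + 1), coeff i D := by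
    intro k
    rw [← hcm, hD]
    congr 1
    calc V = V * (PowerSeries.mk 1 * (1 - X)) := by rw [hone, mul_one]
      _ = _ := by ring
  -- nonnegativity
  have hnn : ∀ N j, 0 ≤ coeff j ((PowerSeries.mk π) ^ N) := by
    intro N
    induction N with
    | zero => intro j; rw [pow_zero, coeff_one]; split_ifs <;> norm_num
    | succ N ih =>
      intro j
      rw [pow_succ, coeff_mul]
      exact Finset.sum_nonneg fun x _ => mul_nonneg (ih _) (by rw [coeff_mk]; exact hπ0 _)
  refine ⟨t0, ht0, hBf, hleast, hψ ▸ hψ0, hb ▸ hASb, hb ▸ hevb, hq ▸ hASq, ?_⟩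
  intro G hG
  obtain ⟨g, hg⟩ : ∃ g, g = rescale t0 G := ⟨_, rfl⟩
  rw [← hg] at hG ⊢
  have hDg := hASD.mul hG
  have hcVg : ∀ k, coeff k (g * V) = ∑ i ∈ Finset.range (k + 1), coeff i (D * g) := by
    intro k
    rw [← hcm, hD]
    congr 1
    calc g * V = g * V * (PowerSeries.mk 1 * (1 - X)) := by rw [hone, mul_one]
      _ = _ := by ring
  have hVlim : Tendsto (fun k => t0 * ψ * coeff k (g * V)) atTop (𝓝 (ev g)) := by
    have h1 := hDg.1.summable.hasSum.tendsto_sum_nat
    have h2 := (h1.comp (tendsto_add_atTop_nat 1)).const_mul (t0 * ψ)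
    have h3 : t0 * ψ * ∑' i, coeff i (D * g) = ev g := by
      have h4 : ∑' i, coeff i (D * g) = ev D * ev g := hDg.2
      rw [h4, ← hevB, ← mul_assoc, hevBD, one_mul]
    rw [h3] at h2
    refine h2.congr fun k => ?_
    rw [hcVg]; rfl
  have hfin := toepG _ _ hVlim (fun N j => coeff j ((PowerSeries.mk π) ^ N)) hnn hclt1 hclt2
  rw [← hψ]
  refine hfin.congr fun N => ?_
  have h1 : PowerSeries.mk π = C ψ * q := by
    ext k; rw [coeff_mk, coeff_C_mul, hπ]
  have h2 : t0 ^ N * coeff N (G * (BS⁻¹ * PS⁻¹ ^ N)) =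
      ∑ k ∈ Finset.range (N + 1), coeff k (g * V) * coeff (N - k) (q ^ N) := by
    rw [← coeff_rescale, map_mul (rescale t0) G, map_mul (rescale t0) BS⁻¹, map_pow, ← hV, ← hq,
      ← hg, ← mul_assoc, coeff_mul, Finset.Nat.sum_antidiagonal_eq_sum_range_succ_mk]
  have h3 : coeff N (G * (BS⁻¹ * PS⁻¹ ^ N)) * (t0 * ψ) ^ (N + 1) =
      (t0 ^ N * coeff N (G * (BS⁻¹ * PS⁻¹ ^ N))) * (t0 * ψ ^ (N + 1)) := by
    rw [mul_pow]; ring
  rw [h3, h2, Finset.sum_mul]
  refine Finset.sum_congr rfl fun k _ => ?_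
  rw [h1, mul_pow, ← map_pow, coeff_C_mul]
  ring

end Pool.Agent.KS6_29.PF
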