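import Mathlib

/-!
MP_9d63a4_co: two elementary limits.
-/

set_option autoImplicit false

namespace Pool.Agent.KS6_29.PF
open Filter Topology

lemma lim_add_div (c : ℝ) : Tendsto (fun n : ℕ => ((n : ℝ) + c) / n) atTop (𝓝 1) := by
  have h1 : Tendsto (fun n : ℕ => 1 + c * (1 / (n : ℝ))) atTop (𝓝 (1 + c * 0)) :=
    (tendsto_one_div_atTop_nhds_zero_nat.const_mul c).const_add 1
  rw [mul_zero, add_zero] at h1
  refine h1.congr' ?_
  filter_upwards [eventually_gt_atTop 0] with n hn
  have : (n : ℝ) ≠ 0 := by positivity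
  field_simp

lemma lim_choose (j : ℕ) :
    Tendsto (fun n : ℕ => ((n + j).choose j : ℝ) / (n : ℝ) ^ j) atTop (𝓝 (1 / j.factorial)) := by
  induction j with
  | zero => simp
  | succ j ih =>
    have h1 := (ih.mul (lim_add_div ((j : ℝ) + 1))).mul_const (1 / ((j : ℝ) + 1))
    have h2 : (1 : ℝ) / (j + 1).factorial = 1 / j.factorial * 1 * (1 / ((j : ℝ) + 1)) := by
      rw [Nat.factorial_succ]; push_cast
      have h3 : (j.factorial : ℝ) ≠ 0 := by positivity
      have h4 : (j : ℝ) + 1 ≠ 0 := by positivity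
      field_simp
    rw [h2]
    refine h1.congr' ?_
    filter_upwards [eventually_gt_atTop 0] with n hn
    have h3 : (n : ℝ) ≠ 0 := by positivity
    have h4 : (j : ℝ) + 1 ≠ 0 := by positivity
    have h5 := Nat.add_one_mul_choose_eq (n + j) j
    have h6 : ((n : ℝ) + j + 1) * ((n + j).choose j : ℝ) =
        ((n + (j + 1)).choose (j + 1) : ℝ) * (j + 1) := by
      rw [← add_assoc n j 1]
      exact_mod_cast h5
    rw [pow_succ]
    field_simp
    linear_combination h6

lemma lim_desc (k : ℕ) :
    Tendsto (fun n : ℕ => ((n + 1).descFactorial k : ℝ) / (n : ℝ) ^ k) atTop (𝓝 1) := by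
  induction k with
  | zero => simp
  | succ k ih =>
    have h1 := ih.mul (lim_add_div (1 - (k : ℝ)))
    rw [mul_one] at h1
    refine h1.congr' ?_
    filter_upwards [eventually_gt_atTop k] with n hn
    have h3 : (n : ℝ) ≠ 0 := by
      have : 0 < n := by omega
      positivity
    rw [Nat.descFactorial_succ, Nat.cast_mul, Nat.cast_sub (by omega), pow_succ]
    push_cast
    field_simp
    ring

lemma lim_ratio (j k : ℕ) (h : j ≤ k) :
    Tendsto (fun n : ℕ => (Nat.multichoose (n + 1) j : ℝ) / ((n + 1).descFactorial k : ℝ)) atTop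
      (𝓝 (if j = k then 1 / k.factorial else 0)) := by
  have h1 : Tendsto (fun n : ℕ => (1 / (n : ℝ)) ^ (k - j)) atTop (𝓝 (if j = k then 1 else 0)) := by
    have h2 := (tendsto_one_div_atTop_nhds_zero_nat (𝕜 := ℝ)).pow (k - j)
    by_cases h3 : j = k
    · rw [if_pos h3, h3, Nat.sub_self]
      simp
    · rw [if_neg h3]
      rwa [zero_pow (by omega)] at h2
  have h2 := ((lim_choose j).mul h1).div (lim_desc k) one_ne_zero
  have h3 : (if j = k then (1 : ℝ) / k.factorial else 0) =
      1 / j.factorial * (if j = k then 1 else 0) / 1 := by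
    by_cases h4 : j = k
    · rw [if_pos h4, if_pos h4, h4]; ring
    · rw [if_neg h4, if_neg h4]; ring
  rw [h3]
  refine h2.congr' ?_
  filter_upwards [eventually_gt_atTop k] with n hn
  have h5 : (n : ℝ) ≠ 0 := by
    have : 0 < n := by omega
    positivity
  have h6 : ((n + 1).descFactorial k : ℝ) ≠ 0 := by
    have : 0 < (n + 1).descFactorial k := Nat.descFactorial_pos.2 (by omega)
    positivity
  have h7 : Nat.multichoose (n + 1) j = (n + j).choose j := by
    rw [Nat.multichoose_eq]; congr 1; omega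
  have h8 : (n : ℝ) ^ k = n ^ j * n ^ (k - j) := by rw [← pow_add]; congr 1; omega
  rw [Pi.div_apply, h7, h8, one_div_pow]
  field_simp

end Pool.Agent.KS6_29.PF
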