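import Pool.Agent.KS6_29.PF.Ser
import Pool.Agent.KS6_29.PF.Asy2
import Pool.Agent.KS6_29.PF.Lim

/-!
MP_9d63a4_co: the asymptotics of the numbers `R_{n,n-k}` for fixed `k`.
-/

set_option autoImplicit false

namespace Pool.Agent.KS6_29.PF
open PowerSeries Filter Topology R47.PK R47.PK.Ser

lemma AS_of_le {f g : ℝ⟦X⟧} (hg : AS g) (h : ∀ k, |coeff k f| ≤ |coeff k g|) : AS f :=
  Summable.of_nonneg_of_le (fun _ => abs_nonneg _) h hg

lemma AS_add {f g : ℝ⟦X⟧} (hf : AS f) (hg : AS g) : AS (f + g) :=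
  Summable.of_nonneg_of_le (fun _ => abs_nonneg _)
    (fun k => by rw [map_add]; exact abs_add_le _ _) (Summable.add hf hg)

lemma AS_neg {f : ℝ⟦X⟧} (hf : AS f) : AS (-f) :=
  AS_of_le hf fun k => by rw [map_neg, abs_neg]

lemma AS_monomial (a : ℝ) (i : ℕ) : AS (C a * X ^ i) := by
  unfold AS
  refine summable_of_ne_finset_zero (s := {i}) fun k hk => ?_
  rw [Finset.mem_singleton] at hk
  rw [coeff_C_mul, coeff_X_pow, if_neg hk, mul_zero, abs_zero]

lemma AS_zero : AS (0 : ℝ⟦X⟧) := by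
  have := AS_monomial 0 0
  rwa [map_zero, zero_mul] at this

lemma AS_one : AS (1 : ℝ⟦X⟧) := by
  have := AS_monomial 1 0
  rwa [map_one, pow_zero, mul_one] at this

lemma AS_sum {α : Type*} (s : Finset α) (f : α → ℝ⟦X⟧) (h : ∀ i ∈ s, AS (f i)) :
    AS (∑ i ∈ s, f i) := by
  classical
  induction s using Finset.induction_on with
  | empty => rw [Finset.sum_empty]; exact AS_zero
  | insert a s ha ih =>
    rw [Finset.sum_insert ha]
    exact AS_add (h a (Finset.mem_insert_self _ _))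
      (ih fun i hi => h i (Finset.mem_insert_of_mem hi))

/-- absolute summability at `t` of all the coefficients in `ε` -/
def SS (t : ℝ) (F : ℝ⟦X⟧⟦X⟧) : Prop := ∀ k, AS (rescale t (cc k F))

lemma SS.mul {t : ℝ} {F G : ℝ⟦X⟧⟦X⟧} (hF : SS t F) (hG : SS t G) : SS t (F * G) := by
  intro k
  rw [cc_mul, map_sum]
  refine AS_sum _ _ fun p _ => ?_
  rw [map_mul]
  exact ((hF p.1).mul (hG p.2)).1

lemma cc_ι (k : ℕ) (f : ℝ⟦X⟧) : cc k (ι f) = if k = 0 then f else 0 := by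
  ext m
  rw [coeff_cc, ι, coeff_map, coeff_C]
  split_ifs <;> simp

lemma SS_ι {t : ℝ} {f : ℝ⟦X⟧} (hf : AS (rescale t f)) : SS t (ι f) := by
  intro k
  rw [cc_ι]
  split_ifs
  · exact hf
  · rw [map_zero]; exact AS_zero

lemma SS_one (t : ℝ) : SS t 1 := by
  have h : (1 : ℝ⟦X⟧⟦X⟧) = ι 1 := (map_one ι).symm
  rw [h]
  refine SS_ι ?_
  rw [map_one]; exact AS_one

lemma SS.pow {t : ℝ} {F : ℝ⟦X⟧⟦X⟧} (hF : SS t F) (j : ℕ) : SS t (F ^ j) := by
  induction j with
  | zero => rw [pow_zero]; exact SS_one t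
  | succ j ih => rw [pow_succ]; exact ih.mul hF

lemma SS_ee {t : ℝ} {G : ℝ⟦X⟧⟦X⟧} (hG : SS t G) : SS t (ee * G) := by
  intro k
  rcases k with _ | k
  · rw [cc_ee_zero, map_zero]; exact AS_zero
  · rw [cc_ee_succ]; exact hG k

lemma SS_add {t : ℝ} {F G : ℝ⟦X⟧⟦X⟧} (hF : SS t F) (hG : SS t G) : SS t (F + G) := by
  intro k
  rw [cc_add, map_add]; exact AS_add (hF k) (hG k)

lemma AS_TT {t : ℝ} (hB : AS (rescale t BS)) (i : ℕ) : AS (rescale t (TT i)) := by
  have h1 : AS (rescale t (KK i)) := by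
    rw [KK, map_mul]
    have h2 : rescale t (C ((-1) ^ i / (i.factorial : ℝ)) * X ^ i) =
        C ((-1) ^ i / (i.factorial : ℝ) * t ^ i) * X ^ i := by
      ext m
      rw [coeff_rescale, coeff_C_mul, coeff_C_mul, coeff_X_pow]
      split_ifs with h
      · rw [h]; ring
      · simp
    rw [h2]
    exact ((AS_monomial _ i).mul hB).1
  refine AS_of_le h1 fun k => ?_
  rw [coeff_rescale, coeff_rescale, TT, coeff_mk, abs_mul, abs_mul, abs_div]
  refine mul_le_mul_of_nonneg_left ?_ (abs_nonneg _)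
  rw [abs_of_pos (by positivity : (0 : ℝ) < (k : ℝ) + 1)]
  refine div_le_self (abs_nonneg _) ?_
  have : (0 : ℝ) ≤ k := by positivity
  linarith

lemma SS_WW {t : ℝ} (hB : AS (rescale t BS)) (hP : AS (rescale t PS⁻¹)) :
    SS t WW := by
  intro k
  rw [cc_WW, map_mul, map_neg]
  exact ((AS_neg (AS_TT hB _)).mul hP).1

lemma SS_FF {t : ℝ} (hB : AS (rescale t BS)) (hP : AS (rescale t PS⁻¹)) : SS t FF := by
  refine SS_add (SS_one t) (SS_ee (SS_ι ?_))
  rw [map_mul]; exact (hB.mul hP).1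

lemma AS_gg {t : ℝ} (hB : AS (rescale t BS)) (hP : AS (rescale t PS⁻¹)) (k j : ℕ) :
    AS (rescale t (gg k j)) :=
  ((SS_FF hB hP).mul ((SS_WW hB hP).pow j)) (k - j)

lemma ev_C_mul_X (a : ℝ) : ev (C a * X) = a := by
  unfold ev
  rw [tsum_eq_single 1]
  · rw [coeff_C_mul, coeff_one_X, mul_one]
  · intro m hm
    rw [coeff_C_mul, coeff_X, if_neg hm, mul_zero]

lemma ev_one : ev (1 : ℝ⟦X⟧) = 1 := by
  unfold ev
  rw [tsum_eq_single 0]
  · simp
  · intro k hk; rw [coeff_one, if_neg hk]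

lemma ev_add {f g : ℝ⟦X⟧} (hf : AS f) (hg : AS g) : ev (f + g) = ev f + ev g := by
  unfold ev
  rw [← hf.summable.tsum_add hg.summable]
  exact tsum_congr fun k => map_add _ _ _

lemma ev_pow {f : ℝ⟦X⟧} (hf : AS f) (j : ℕ) : AS (f ^ j) ∧ ev (f ^ j) = ev f ^ j := by
  induction j with
  | zero => rw [pow_zero, pow_zero]; exact ⟨AS_one, ev_one⟩
  | succ j ih =>
    rw [pow_succ, pow_succ]
    exact ⟨(ih.1.mul hf).1, by rw [(ih.1.mul hf).2, ih.2]⟩

/-- the value of `W` at `ε = 0`, `t = t0` -/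
lemma ev_W {t : ℝ} (hB : AS (rescale t BS)) (hB0 : ev (rescale t BS) = 0)
    (hP : AS (rescale t PS⁻¹)) :
    AS (rescale t (cc 0 WW)) ∧ ev (rescale t (cc 0 WW)) = t - 1 := by
  have h1 : rescale t (cc 0 WW) = (C t * X + -1) + rescale t BS * rescale t PS⁻¹ := by
    rw [cc_WW_zero, map_add, map_mul, map_sub, map_one, sub_eq_add_neg]
    congr 2
    ext m
    rw [coeff_rescale, coeff_C_mul, coeff_X]
    split_ifs with h
    · rw [h]; ring
    · simp
  have hX : AS (C t * X) := by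
    have := AS_monomial t 1
    rwa [pow_one] at this
  have h1' : AS (-1 : ℝ⟦X⟧) := AS_neg AS_one
  have h1e : ev (-1 : ℝ⟦X⟧) = -1 := by
    have h2 := ev_add AS_one h1'
    rw [add_neg_cancel, ev_one] at h2
    have h3 : ev (0 : ℝ⟦X⟧) = 0 := by unfold ev; simp
    rw [h3] at h2; linarith
  have hBP := hB.mul hP
  rw [h1]
  refine ⟨AS_add (AS_add hX h1') hBP.1, ?_⟩
  rw [ev_add (AS_add hX h1') hBP.1, ev_add hX h1', hBP.2, hB0, ev_C_mul_X, h1e]
  ring

lemma cc_FF_zero : cc 0 FF = 1 := by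
  rw [FF, cc_add, cc_ee_zero, add_zero]
  have h : (1 : ℝ⟦X⟧⟦X⟧) = ι 1 := (map_one ι).symm
  rw [h, cc_ι, if_pos rfl]

lemma ev_gg {t : ℝ} (hB : AS (rescale t BS)) (hB0 : ev (rescale t BS) = 0)
    (hP : AS (rescale t PS⁻¹)) (k : ℕ) : ev (rescale t (gg k k)) = (t - 1) ^ k := by
  obtain ⟨h1, h2⟩ := ev_W hB hB0 hP
  rw [gg, Nat.sub_self, cc_zero_mul, cc_FF_zero, one_mul, cc_zero_pow, map_pow, (ev_pow h1 k).2, h2]

/-- **the asymptotics of `R_{n,n-k}` for every fixed `k`** -/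
theorem main : ∃ t0 : ℝ, 0 < t0 ∧ Bf t0 = 0 ∧ (∀ t, 0 ≤ t → t < t0 → 0 < Bf t) ∧ 0 < Pf t0 ∧
    ∀ k : ℕ, Tendsto (fun n : ℕ => (numR n (n + 1 - k) : ℝ) /
      (((n + 1).factorial : ℝ) ^ 2 / (2 * (n + 1) * (t0 * Pf t0) ^ (n + 1)))) atTop
      (𝓝 ((t0 - 1) ^ k / k.factorial)) := by
  obtain ⟨t0, ht0, hBf, hleast, hPf, hASB, hevB, hASP, hlim⟩ := asyG
  refine ⟨t0, ht0, hBf, hleast, hPf, fun k => ?_⟩
  have h1 : ∀ j ∈ Finset.range (k + 1), Tendsto (fun n : ℕ =>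
      2 * ((Nat.multichoose (n + 1) j : ℝ) / ((n + 1).descFactorial k : ℝ)) *
      (coeff n (gg k j * (BS⁻¹ * (PS⁻¹) ^ n)) * (t0 * Pf t0) ^ (n + 1))) atTop
      (𝓝 (2 * (if j = k then (1 : ℝ) / k.factorial else 0) *
        (ev (rescale t0 (gg k j)) / 2))) := by
    intro j hj
    rw [Finset.mem_range] at hj
    exact ((lim_ratio j k (by omega)).const_mul 2).mul (hlim _ (AS_gg hASB hASP k j))
  have h2 := tendsto_finsetSum (Finset.range (k + 1)) h1
  have h3 : ∑ j ∈ Finset.range (k + 1), (2 * (if j = k then (1 : ℝ) / k.factorial else 0) *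
      (ev (rescale t0 (gg k j)) / 2)) = (t0 - 1) ^ k / k.factorial := by
    rw [Finset.sum_eq_single k]
    · rw [if_pos rfl, ev_gg hASB hevB hASP]; ring
    · intro j _ hne
      rw [if_neg hne]; ring
    · intro h; exact absurd (Finset.mem_range.mpr (by omega)) h
  rw [h3] at h2
  refine h2.congr' ?_
  filter_upwards [eventually_ge_atTop k] with n hn
  have hk : k ≤ n + 1 := by omega
  have h4 : ((n + 1 - k).factorial : ℝ) * ((n + 1).descFactorial k : ℝ) = (n + 1).factorial := by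
    exact_mod_cast Nat.factorial_mul_descFactorial hk
  have h5 : ((n + 1).factorial : ℝ) = (n + 1) * n.factorial := by
    rw [Nat.factorial_succ]; push_cast; ring
  have h6 : ((n + 1).descFactorial k : ℝ) ≠ 0 := by
    have : 0 < (n + 1).descFactorial k := Nat.descFactorial_pos.2 (by omega)
    positivity
  have h7 : (t0 * Pf t0) ^ (n + 1) ≠ 0 := by positivity
  have h8 : ((n + 1).factorial : ℝ) ≠ 0 := by positivity
  have h9 : (n : ℝ) + 1 ≠ 0 := by positivity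
  have h10 : (n.factorial : ℝ) ≠ 0 := by positivity
  rw [numR_eq n k hk]
  have h11 : ((n + 1 - k).factorial : ℝ) = (n + 1).factorial / (n + 1).descFactorial k := by
    rw [← h4]; field_simp
  rw [h11, Finset.mul_sum, Finset.mul_sum, Finset.sum_div]
  refine Finset.sum_congr rfl fun j _ => ?_
  rw [h5]
  field_simp

end Pool.Agent.KS6_29.PF
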