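import Pool.Graph.R_seed8.R47.PK.Asy

/-!
MP_9d63a4_co: the zero `t0` lies between `1.44` and `1.45`.
-/

set_option autoImplicit false

namespace Pool.Agent.KS6_29.PF
open R47.PK R47.PK.Ser

lemma fact_ge6 (k : ℕ) : (720 : ℝ) * 7 ^ k ≤ ((k + 6).factorial : ℝ) := by
  induction k with
  | zero => norm_num [Nat.factorial]
  | succ k ih =>
    rw [show k + 1 + 6 = (k + 6) + 1 by ring, Nat.factorial_succ]
    push_cast
    have h1 : (7 : ℝ) ≤ (k : ℝ) + 6 + 1 := by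
      have : (0 : ℝ) ≤ k := by positivity
      linarith
    calc (720 : ℝ) * 7 ^ (k + 1) = 7 * (720 * 7 ^ k) := by ring
      _ ≤ ((k : ℝ) + 6 + 1) * ((k + 6).factorial : ℝ) :=
          mul_le_mul h1 ih (by positivity) (by positivity)

/-- `J₀(2√t)` up to an error -/
lemma Bf_approx {t : ℝ} (h0 : 0 ≤ t) (h1 : t ≤ 3 / 2) :
    |Bf t - (1 - t + t ^ 2 / 4 - t ^ 3 / 36 + t ^ 4 / 576 - t ^ 5 / 14400)| ≤ 1 / 40000 := by
  have hs := bsum h0 h1
  have h2 : ∑ i ∈ Finset.range 6, (-1 : ℝ) ^ i * t ^ i / ((i.factorial : ℝ)) ^ 2 =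
      1 - t + t ^ 2 / 4 - t ^ 3 / 36 + t ^ 4 / 576 - t ^ 5 / 14400 := by
    simp only [Finset.sum_range_succ, Finset.sum_range_zero, Nat.factorial]
    norm_num
    ring
  have h3 := hs.sum_add_tsum_nat_add 6
  rw [h2] at h3
  have h4 : Bf t - (1 - t + t ^ 2 / 4 - t ^ 3 / 36 + t ^ 4 / 576 - t ^ 5 / 14400) =
      ∑' i, (-1 : ℝ) ^ (i + 6) * t ^ (i + 6) / (((i + 6).factorial : ℝ)) ^ 2 := by
    unfold Bf; linarith
  rw [h4]
  have h5 : ∀ i : ℕ, ‖(-1 : ℝ) ^ (i + 6) * t ^ (i + 6) / (((i + 6).factorial : ℝ)) ^ 2‖ ≤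
      (3 / 2) ^ 6 / 518400 * (3 / 98 : ℝ) ^ i := by
    intro i
    rw [Real.norm_eq_abs, abs_div, abs_mul, abs_pow, abs_neg, abs_one, one_pow, one_mul,
      abs_of_nonneg (by positivity),
      abs_of_nonneg (by positivity : (0 : ℝ) ≤ (((i + 6).factorial : ℝ)) ^ 2)]
    have h6 : (720 * 7 ^ i : ℝ) ^ 2 ≤ (((i + 6).factorial : ℝ)) ^ 2 :=
      pow_le_pow_left₀ (by positivity) (fact_ge6 i) 2
    have h7 : t ^ (i + 6) ≤ (3 / 2) ^ (i + 6) := pow_le_pow_left₀ h0 h1 _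
    refine (div_le_div₀ (by positivity) h7 (by positivity) h6).trans_eq ?_
    have h8 : (3 / 98 : ℝ) ^ i = (3 / 2) ^ i / (7 ^ i) ^ 2 := by
      rw [← pow_mul, mul_comm i 2, pow_mul, ← div_pow]; norm_num
    rw [h8, pow_add]
    field_simp
    norm_num
  have hgs : Summable fun i : ℕ => (3 / 2) ^ 6 / 518400 * (3 / 98 : ℝ) ^ i :=
    (summable_geometric_of_lt_one (by norm_num) (by norm_num)).mul_left _
  have h6 := tsum_of_norm_bounded hgs.hasSum h5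
  rw [tsum_mul_left, tsum_geometric_of_lt_one (by norm_num) (by norm_num), Real.norm_eq_abs] at h6
  refine h6.trans ?_
  norm_num

/-- the zero -/
lemma t0_bounds {t0 : ℝ} (h0 : 0 < t0) (h1 : Bf t0 = 0) (h2 : ∀ t, 0 ≤ t → t < t0 → 0 < Bf t) :
    1.44 < t0 ∧ t0 < 1.45 := by
  constructor
  · by_contra hcon
    rw [not_lt] at hcon
    obtain ⟨s, hs⟩ : ∃ s, s = 1.44 - t0 := ⟨_, rfl⟩
    have hs0 : 0 ≤ s := by rw [hs]; linarith
    have h3 := (abs_le.1 (Bf_approx h0.le (by norm_num at hcon ⊢; linarith))).2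
    have h3' := (abs_le.1 (Bf_approx h0.le (by norm_num at hcon ⊢; linarith))).1
    rw [h1, show t0 = 1.44 - s by rw [hs]; ring] at h3 h3'
    have h4 : 0 < (1 - (1.44 - s) + (1.44 - s) ^ 2 / 4 - (1.44 - s) ^ 3 / 36 +
        (1.44 - s) ^ 4 / 576 - (1.44 - s) ^ 5 / 14400) - 1 / 40000 := by
      ring_nf
      positivity
    linarith
  · by_contra hcon
    rw [not_lt] at hcon
    have h5 : Bf 1.45 < 0 := by
      have h3 := (abs_le.1 (Bf_approx (t := 1.45) (by norm_num) (by norm_num))).2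
      norm_num at h3 ⊢
      linarith
    rcases hcon.eq_or_lt with h6 | h6
    · rw [h6, h1] at h5; exact lt_irrefl _ h5
    · exact absurd (h2 _ (by norm_num) h6) (not_lt.2 h5.le)

end Pool.Agent.KS6_29.PF
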