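import Pool.Graph.R_seed8.R47.PK.Final
import Pool.Graph.R_seed8.R47.PK.AsySer

/-!
MP_9d63a4_co: the coefficients in `ε` of the generating function of the numbers `R_{n,m}`.
-/

set_option autoImplicit false

namespace Pool.Agent.KS6_29.PF
open PowerSeries R47.PK

/-- the coefficient of `ε ^ k` of a power series in `t` over `ℝ⟦ε⟧`, as a power series in `t` -/
noncomputable def cc (k : ℕ) (F : ℝ⟦X⟧⟦X⟧) : ℝ⟦X⟧ := PowerSeries.mk fun m => coeff k (coeff m F)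

/-- `ℝ⟦t⟧ → ℝ⟦ε⟧⟦t⟧` -/
noncomputable def ι : ℝ⟦X⟧ →+* ℝ⟦X⟧⟦X⟧ := PowerSeries.map (C (R := ℝ))

/-- the variable `ε` -/
noncomputable def ee : ℝ⟦X⟧⟦X⟧ := C (X : ℝ⟦X⟧)

lemma coeff_cc (k m : ℕ) (F : ℝ⟦X⟧⟦X⟧) : coeff m (cc k F) = coeff k (coeff m F) := by
  rw [cc, coeff_mk]

lemma cc_add (k : ℕ) (F G : ℝ⟦X⟧⟦X⟧) : cc k (F + G) = cc k F + cc k G := by
  ext m; simp only [map_add, coeff_cc]

lemma cc_ι_mul (k : ℕ) (f : ℝ⟦X⟧) (G : ℝ⟦X⟧⟦X⟧) : cc k (ι f * G) = f * cc k G := by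
  ext m
  rw [coeff_cc, coeff_mul, coeff_mul, map_sum]
  refine Finset.sum_congr rfl fun p _ => ?_
  rw [ι, coeff_map, coeff_C_mul, coeff_cc]

lemma cc_ee_succ (k : ℕ) (G : ℝ⟦X⟧⟦X⟧) : cc (k + 1) (ee * G) = cc k G := by
  ext m
  rw [coeff_cc, ee, coeff_C_mul, coeff_succ_X_mul, coeff_cc]

lemma cc_ee_zero (G : ℝ⟦X⟧⟦X⟧) : cc 0 (ee * G) = 0 := by
  ext m
  rw [coeff_cc, ee, coeff_C_mul, coeff_zero_X_mul, map_zero]

lemma cc_zero_mul (F G : ℝ⟦X⟧⟦X⟧) : cc 0 (F * G) = cc 0 F * cc 0 G := by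
  ext m
  rw [coeff_cc, coeff_mul, coeff_mul, map_sum]
  refine Finset.sum_congr rfl fun p _ => ?_
  rw [coeff_cc, coeff_cc]
  simp only [coeff_zero_eq_constantCoeff_apply, map_mul]

lemma cc_mul (k : ℕ) (F G : ℝ⟦X⟧⟦X⟧) :
    cc k (F * G) = ∑ p ∈ Finset.HasAntidiagonal.antidiagonal k, cc p.1 F * cc p.2 G := by
  ext m
  rw [coeff_cc, coeff_mul, map_sum, map_sum]
  simp only [coeff_mul, coeff_cc]
  rw [Finset.sum_comm]

lemma cc_zero_pow (F : ℝ⟦X⟧⟦X⟧) (j : ℕ) : cc 0 (F ^ j) = cc 0 F ^ j := by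
  induction j with
  | zero =>
    rw [pow_zero, pow_zero]
    ext m
    rw [coeff_cc, coeff_one, coeff_one]
    split_ifs <;> simp
  | succ j ih => rw [pow_succ, cc_zero_mul, ih, pow_succ]

/-- the expansion of `F / (1 - ε W)^n` -/
lemma expand (U W : ℝ⟦X⟧⟦X⟧) (hU : U = 1 + ee * (W * U)) (n : ℕ) : ∀ (k : ℕ) (F : ℝ⟦X⟧⟦X⟧),
    cc k (F * U ^ n) =
      ∑ j ∈ Finset.range (k + 1), (Nat.multichoose n j : ℝ⟦X⟧) * cc (k - j) (F * W ^ j) := by
  induction n with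
  | zero =>
    intro k F
    rw [Finset.sum_range_succ', Finset.sum_eq_zero]
    · simp
    · intro j _
      rw [Nat.multichoose_zero_succ]; simp
  | succ n ihn =>
    intro k
    induction k with
    | zero =>
      intro F
      have h1 : F * U ^ (n + 1) = F * U ^ n + ee * (F * W * U ^ (n + 1)) := by
        calc F * U ^ (n + 1) = F * U ^ n * U := by ring
          _ = F * U ^ n * (1 + ee * (W * U)) := by rw [← hU]
          _ = _ := by ring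
      rw [h1, cc_add, cc_ee_zero, add_zero, ihn]
      simp
    | succ k ihk =>
      intro F
      have h1 : F * U ^ (n + 1) = F * U ^ n + ee * (F * W * U ^ (n + 1)) := by
        calc F * U ^ (n + 1) = F * U ^ n * U := by ring
          _ = F * U ^ n * (1 + ee * (W * U)) := by rw [← hU]
          _ = _ := by ring
      rw [h1, cc_add, cc_ee_succ, ihn, ihk, Finset.sum_range_succ' _ (k + 1),
        Finset.sum_range_succ' _ (k + 1)]
      have h2 : ∀ j ∈ Finset.range (k + 1),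
          (Nat.multichoose (n + 1) (j + 1) : ℝ⟦X⟧) * cc (k + 1 - (j + 1)) (F * W ^ (j + 1)) =
          (Nat.multichoose n (j + 1) : ℝ⟦X⟧) * cc (k + 1 - (j + 1)) (F * W ^ (j + 1)) +
          (Nat.multichoose (n + 1) j : ℝ⟦X⟧) * cc (k - j) (F * W * W ^ j) := by
        intro j _
        rw [Nat.multichoose_succ_succ, Nat.cast_add, Nat.succ_sub_succ, add_mul, mul_assoc F W,
          ← pow_succ' W j]
      rw [Finset.sum_congr rfl h2, Finset.sum_add_distrib]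
      simp only [Nat.multichoose_zero_right]
      ring

/-! ### the series of the problem -/

/-- `(-t)^i / i! * J₀(2√t)` -/
noncomputable def KK (i : ℕ) : ℝ⟦X⟧ := C ((-1) ^ i / (i.factorial : ℝ)) * X ^ i * BS

/-- the coefficient of `ε ^ i` of `Z(t) / t` -/
noncomputable def TT (i : ℕ) : ℝ⟦X⟧ := PowerSeries.mk fun m => coeff m (KK i) / (m + 1)

/-- `(P - Z/t) / ε` -/
noncomputable def HH : ℝ⟦X⟧⟦X⟧ :=
  PowerSeries.mk fun m => PowerSeries.mk fun i => -coeff m (TT (i + 1))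

/-- `(P - Z/t) / (ε P)` -/
noncomputable def WW : ℝ⟦X⟧⟦X⟧ := HH * ι PS⁻¹

/-- `P / (Z/t)` -/
noncomputable def UU : ℝ⟦X⟧⟦X⟧ := ι PS * serV (1 : ℝ⟦X⟧) X

lemma algQ (q : ℚ) : algebraMap ℚ ℝ⟦X⟧ q = C (algebraMap ℚ ℝ q) :=
  RingHom.congr_fun (Subsingleton.elim (algebraMap ℚ ℝ⟦X⟧) ((C (R := ℝ)).comp (algebraMap ℚ ℝ))) q

lemma ι_BS : ι BS = serB (1 : ℝ⟦X⟧) := by
  ext m : 1
  rw [ι, coeff_map, BS, coeff_mk, serB, coeff_mk]
  rw [show ((-1 : ℝ) ^ m / ((m.factorial : ℝ)) ^ 2) = (algebraMap ℚ ℝ (((m.factorial : ℚ) ^ 2)⁻¹)) *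
    (-1) ^ m by simp; ring]
  rw [map_mul, map_pow, map_neg, map_one, algQ]

lemma ι_PS : ι PS = serP (1 : ℝ⟦X⟧) := by
  ext m : 1
  rw [ι, coeff_map, PS, coeff_mk, serP, coeff_mk]
  rw [show ((-1 : ℝ) ^ m / ((m.factorial : ℝ) * ((m + 1).factorial : ℝ))) =
    (algebraMap ℚ ℝ (((m.factorial : ℚ) * ((m + 1).factorial : ℚ))⁻¹)) *
    (-1) ^ m by simp; ring]
  rw [map_mul, map_pow, map_neg, map_one, algQ]

lemma cc_HH (i : ℕ) : cc i HH = -TT (i + 1) := by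
  ext m
  rw [coeff_cc, HH, coeff_mk, coeff_mk, map_neg]

lemma cc_WW (i : ℕ) : cc i WW = -TT (i + 1) * PS⁻¹ := by
  rw [WW, mul_comm HH, cc_ι_mul, cc_HH, mul_comm]

lemma cc_exp (i : ℕ) : cc i (rescale (-X : ℝ⟦X⟧) (PowerSeries.exp ℝ⟦X⟧)) =
    C ((-1) ^ i / (i.factorial : ℝ)) * X ^ i := by
  ext m
  rw [coeff_cc, coeff_rescale, coeff_exp, coeff_C_mul, coeff_X_pow, neg_pow,
    show (algebraMap ℚ ℝ⟦X⟧ (1 / m.factorial)) = C ((1 : ℝ) / m.factorial) by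
      rw [show ((1 : ℝ) / m.factorial) = algebraMap ℚ ℝ (1 / m.factorial) by simp, algQ],
    show ((-1 : ℝ⟦X⟧) ^ m * X ^ m * C ((1 : ℝ) / m.factorial)) =
      C ((-1) ^ m / (m.factorial : ℝ)) * X ^ m by
      rw [show ((-1) ^ m / (m.factorial : ℝ)) = (-1) ^ m * ((1 : ℝ) / m.factorial) by ring,
        map_mul, map_pow, map_neg, map_one]
      ring,
    coeff_C_mul, coeff_X_pow]
  by_cases h : i = m
  · subst h; rfl
  · rw [if_neg h, if_neg (Ne.symm h), mul_zero, mul_zero]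

lemma cc_serZt (i : ℕ) : cc i (serZt (1 : ℝ⟦X⟧) X) = TT i := by
  ext m
  have h1 : coeff i (coeff m (serZ' (1 : ℝ⟦X⟧) X)) = coeff m (KK i) := by
    rw [← coeff_cc, serZ', ← ι_BS, mul_comm, cc_ι_mul, cc_exp, KK]
    ring_nf
  rw [coeff_cc, serZt, coeff_mk, TT, coeff_mk, ← h1,
    show (algebraMap ℚ ℝ⟦X⟧ ((m + 1 : ℚ)⁻¹)) = C (((m : ℝ) + 1)⁻¹) by
      rw [show (((m : ℝ) + 1)⁻¹) = algebraMap ℚ ℝ ((m + 1 : ℚ)⁻¹) by simp, algQ],
    coeff_C_mul]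
  ring

lemma TT_zero : TT 0 = PS := by
  ext m
  rw [TT, coeff_mk, KK, pow_zero, pow_zero, mul_one, coeff_C_mul, BS, coeff_mk, PS, coeff_mk,
    Nat.factorial_succ]
  push_cast
  simp only [Nat.factorial_zero, Nat.cast_one]
  have h1 : (m.factorial : ℝ) ≠ 0 := by positivity
  have h2 : (m : ℝ) + 1 ≠ 0 := by positivity
  field_simp

lemma TT_one : -TT 1 = (X - 1) * PS + BS := by
  ext m
  rw [map_neg, TT, coeff_mk, KK, pow_one, pow_one, Nat.factorial_one, Nat.cast_one, mul_assoc,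
    coeff_C_mul, map_add, sub_mul, one_mul, map_sub]
  rcases m with _ | m
  · rw [coeff_zero_X_mul, coeff_zero_X_mul, PS, BS, coeff_mk, coeff_mk]
    norm_num
  · rw [coeff_succ_X_mul, coeff_succ_X_mul, PS, BS, coeff_mk, coeff_mk, coeff_mk, coeff_mk]
    have h1 : (m.factorial : ℝ) ≠ 0 := by positivity
    have h2 : (m : ℝ) + 1 ≠ 0 := by positivity
    have h3 : (m : ℝ) + 2 ≠ 0 := by positivity
    have h4 : ((m + 1).factorial : ℝ) = (m + 1) * m.factorial := by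
      rw [Nat.factorial_succ]; push_cast; ring
    have h5 : ((m + 1 + 1).factorial : ℝ) = (m + 2) * ((m + 1) * m.factorial) := by
      rw [Nat.factorial_succ, Nat.cast_mul, h4]; push_cast; ring
    rw [h5, h4]
    push_cast
    have h6 : (m : ℝ) + 1 + 1 ≠ 0 := by positivity
    field_simp
    ring

/-- the coefficient of `ε ^ 0` of `W` -/
lemma cc_WW_zero : cc 0 WW = (X - 1) + BS * PS⁻¹ := by
  rw [cc_WW, zero_add, TT_one, add_mul, mul_assoc, PowerSeries.mul_inv_cancel _ Ser.ps_ne, mul_one]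

lemma serZt_eq : serZt (1 : ℝ⟦X⟧) X = ι PS - ee * HH := by
  ext m i
  rw [← coeff_cc, cc_serZt, map_sub, map_sub, ι, coeff_map, ee, coeff_C_mul]
  rcases i with _ | i
  · rw [TT_zero, coeff_zero_X_mul, coeff_C, if_pos rfl, sub_zero]
  · rw [coeff_succ_X_mul, coeff_C, if_neg (Nat.succ_ne_zero i), HH, coeff_mk, coeff_mk]
    ring

lemma ι_PS_inv : ι PS * ι PS⁻¹ = 1 := by
  rw [← map_mul, PowerSeries.mul_inv_cancel _ Ser.ps_ne, map_one]

lemma ι_BS_inv : ι BS * ι BS⁻¹ = 1 := by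
  rw [← map_mul, PowerSeries.mul_inv_cancel _ Ser.bs_ne, map_one]

lemma serV_eq : serV (1 : ℝ⟦X⟧) X = ι PS⁻¹ * UU := by
  rw [UU, ← mul_assoc, mul_comm (ι PS⁻¹), ι_PS_inv, one_mul]

lemma UU_rel : UU = 1 + ee * (WW * UU) := by
  have h1 : serZt (1 : ℝ⟦X⟧) X * serV (1 : ℝ⟦X⟧) X = 1 := Zt_mul_V _ _
  have h2 : (ι PS - ee * HH) * (ι PS⁻¹ * UU) = 1 := by rw [← serZt_eq, ← serV_eq, h1]
  have h3 : (ι PS - ee * HH) * (ι PS⁻¹ * UU) = (ι PS * ι PS⁻¹) * UU - ee * (WW * UU) := by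
    rw [WW]; ring
  rw [h3, ι_PS_inv, one_mul] at h2
  rw [← h2]; ring

lemma invB_eq : invB (1 : ℝ⟦X⟧) = ι BS⁻¹ :=
  inv_unique (a := serB (1 : ℝ⟦X⟧)) (B_mul_inv _) (by rw [← ι_BS]; exact ι_BS_inv)

/-- `1 + ε J₀ / J₁` -/
noncomputable def FF : ℝ⟦X⟧⟦X⟧ := 1 + ee * ι (BS * PS⁻¹)

/-- the fixed series which occur in the coefficient of `ε ^ k` -/
noncomputable def gg (k j : ℕ) : ℝ⟦X⟧ := cc (k - j) (FF * WW ^ j)

/-- the coefficient of `ε ^ k` of the generating function -/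
theorem coeff_serQ (n k : ℕ) : coeff k (serQ (1 : ℝ⟦X⟧) X n) =
    n.factorial * ∑ j ∈ Finset.range (k + 1),
      (Nat.multichoose (n + 1) j : ℝ) * coeff n (gg k j * (BS⁻¹ * PS⁻¹ ^ n)) := by
  have h1 : (C (1 : ℝ⟦X⟧) * serP (1 : ℝ⟦X⟧) * invB (1 : ℝ⟦X⟧) + C (X : ℝ⟦X⟧)) *
      serV (1 : ℝ⟦X⟧) X ^ (n + 1) = ι (BS⁻¹ * PS⁻¹ ^ n) * (FF * UU ^ (n + 1)) := by
    have h2 : ι (BS * PS⁻¹) = ι BS * ι PS⁻¹ := map_mul _ _ _
    have h3 : ι (BS⁻¹ * PS⁻¹ ^ n) = ι BS⁻¹ * ι PS⁻¹ ^ n := by rw [map_mul, map_pow]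
    rw [← ι_PS, invB_eq, serV_eq, FF, h2, h3, map_one, one_mul, mul_pow]
    have h4 : (C (X : ℝ⟦X⟧) : ℝ⟦X⟧⟦X⟧) = ee := rfl
    rw [h4]
    have h5 := ι_PS_inv
    have h6 := ι_BS_inv
    calc (ι PS * ι BS⁻¹ + ee) * (ι PS⁻¹ ^ (n + 1) * UU ^ (n + 1))
        = ι BS⁻¹ * (ι PS * ι PS⁻¹) * ι PS⁻¹ ^ n * UU ^ (n + 1) +
          ee * ι PS⁻¹ ^ (n + 1) * UU ^ (n + 1) * 1 := by ring
      _ = ι BS⁻¹ * 1 * ι PS⁻¹ ^ n * UU ^ (n + 1) +
          ee * ι PS⁻¹ ^ (n + 1) * UU ^ (n + 1) * (ι BS * ι BS⁻¹) := by rw [h5, h6]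
      _ = _ := by ring
  have h7 : ((n.factorial : ℕ) : ℝ⟦X⟧) = C (n.factorial : ℝ) := by simp
  rw [serQ, h7, coeff_C_mul, h1, ← coeff_cc, cc_ι_mul, expand UU WW UU_rel]
  rw [Finset.mul_sum, map_sum]
  congr 1
  refine Finset.sum_congr rfl fun j _ => ?_
  have h8 : ((Nat.multichoose (n + 1) j : ℕ) : ℝ⟦X⟧) = C (Nat.multichoose (n + 1) j : ℝ) := by simp
  rw [h8, mul_left_comm, coeff_C_mul, mul_comm (BS⁻¹ * PS⁻¹ ^ n)]
  rfl

/-- all the numbers `R_{n+1,n+1-k}` -/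
theorem numR_eq (n k : ℕ) (hk : k ≤ n + 1) :
    (numR n (n + 1 - k) : ℝ) = (n + 1 - k).factorial * (n.factorial *
      ∑ j ∈ Finset.range (k + 1),
        (Nat.multichoose (n + 1) j : ℝ) * coeff n (gg k j * (BS⁻¹ * PS⁻¹ ^ n))) := by
  have h1 : (∑ m ∈ Finset.range (n + 2), Polynomial.C ((numR n m : ℚ) / m.factorial) *
      Polynomial.X ^ (n + 1 - m)) = serQ (A := Polynomial ℚ) 1 Polynomial.X n := by
    refine Polynomial.funext fun ε => ?_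
    have h2 := sum_numR n 1 ε
    have h3 := map_serQ (A := Polynomial ℚ) 1 Polynomial.X (Polynomial.evalRingHom ε) n
    simp only [Polynomial.coe_evalRingHom, Polynomial.eval_X, Polynomial.eval_one] at h3
    rw [h3, ← h2, Polynomial.eval_finsetSum]
    refine Finset.sum_congr rfl fun m _ => ?_
    simp
  have h4 := map_serQ (A := Polynomial ℚ) 1 Polynomial.X
    ((PowerSeries.map (algebraMap ℚ ℝ)).comp (Polynomial.coeToPowerSeries.ringHom (R := ℚ))) n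
  have h5 : ((PowerSeries.map (algebraMap ℚ ℝ)).comp
      (Polynomial.coeToPowerSeries.ringHom (R := ℚ))) Polynomial.X = (X : ℝ⟦X⟧) := by simp
  rw [h5, map_one, ← h1] at h4
  have h6 := congrArg (coeff k) h4
  rw [coeff_serQ, RingHom.comp_apply, coeff_map] at h6
  have h7 : coeff k (Polynomial.coeToPowerSeries.ringHom (R := ℚ)
      (∑ m ∈ Finset.range (n + 2), Polynomial.C ((numR n m : ℚ) / m.factorial) *
        Polynomial.X ^ (n + 1 - m))) = (numR n (n + 1 - k) : ℚ) / (n + 1 - k).factorial := by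
    rw [Polynomial.coeToPowerSeries.ringHom_apply, Polynomial.coeff_coe,
      Polynomial.finsetSum_coeff, Finset.sum_eq_single (n + 1 - k)]
    · rw [Polynomial.coeff_C_mul, Polynomial.coeff_X_pow, if_pos (by omega), mul_one]
    · intro m hm hne
      rw [Finset.mem_range] at hm
      rw [Polynomial.coeff_C_mul, Polynomial.coeff_X_pow, if_neg (by omega), mul_zero]
    · intro h; exact absurd (Finset.mem_range.mpr (by omega)) h
  rw [h7] at h6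
  rw [← h6]
  have h8 : ((n + 1 - k).factorial : ℝ) ≠ 0 := by positivity
  simp only [map_div₀, map_natCast]
  field_simp

end Pool.Agent.KS6_29.PF
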